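import Mathlib
import Pool.Agent.N546.PN.Stm

/-!
# Project PN (helper546), part OPE: good points stay good points
-/

set_option autoImplicit false

namespace Pool.Agent.N427.PN

open Filter Topology
open Pool.Agent.N546.PN

theorem cont_val {K : Type} [NontriviallyNormedField K] {n : ℕ} {ι : Type} (e : ι → ℕ) (k : ι) :
    Continuous fun q : ((k : ι) → Mon n (e k + 1) → K) × (Fin (n + 1) → K) =>
      val (q.1 k) q.2 := by
  unfold val
  refine continuous_finsetSum _ fun m _ => ?_
  refine Continuous.mul ?_ ?_
  · exact (continuous_apply m).comp ((continuous_apply k).comp continuous_fst)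
  · refine continuous_finsetProd _ fun i _ => ?_
    exact ((continuous_apply i).comp continuous_snd).pow _

/-- **(OPE)** good points stay good points -/
theorem ope_ (K : Type) [NontriviallyNormedField K] (h : S_SQO K) : S_OPE K := by
  intro n ι _ _ e T c x hpt
  obtain ⟨hne, hS⟩ := hpt
  choose δ hδ hz using fun k => h (val (c k) x) (hne k)
  have hev : ∀ᶠ q in 𝓝 (c, x), ∀ k, ‖val (q.1 k) q.2 - val (c k) x‖ < δ k := by
    rw [Filter.eventually_all]
    intro k
    have hc : Tendsto (fun q : ((k : ι) → Mon n (e k + 1) → K) × (Fin (n + 1) → K) =>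
        val (q.1 k) q.2) (𝓝 (c, x)) (𝓝 (val (c k) x)) := (cont_val e k).tendsto (c, x)
    have h1 := (Metric.tendsto_nhds.1 hc) (δ k) (hδ k)
    filter_upwards [h1] with q hq
    rwa [dist_eq_norm] at hq
  obtain ⟨ε, hε, hb⟩ := Metric.eventually_nhds_iff.1 hev
  refine ⟨ε, hε, fun c' x' hc' hx' => ?_⟩
  have hd : dist (c', x') (c, x) < ε := by
    rw [Prod.dist_eq, max_lt_iff]
    constructor
    · rw [dist_pi_lt_iff hε]
      intro k
      rw [dist_pi_lt_iff hε]
      intro m
      rw [dist_eq_norm]
      exact hc' k m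
    · rw [dist_pi_lt_iff hε]
      intro i
      rw [dist_eq_norm]
      exact hx' i
  have h2 := hb hd
  choose z hz0 hzz using fun k => hz k (val (c' k) x') (h2 k)
  refine ⟨fun k => ?_, ?_⟩
  · rw [hzz k]
    exact mul_ne_zero (hne k) (pow_ne_zero 2 (hz0 k))
  · have h3 : (fun k => val (c' k) x') = fun k => val (c k) x * z k ^ 2 := funext hzz
    rw [h3]
    exact T.sq K (fun k => val (c k) x) z hz0 hS

end Pool.Agent.N427.PN
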